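import Pool.Agent.W307.FK.Stm
import Pool.Agent.W125.RK2.SUB4

/-!
# FK-SUBL: lower bound for the growth of the local count
-/

set_option autoImplicit false

namespace Pool.Agent.W940.FK

open Finset Pool.Agent.W262.RK Pool.Agent.W307.FK Pool.Agent.W125.RK2

lemma phi_xor (c : Fin 3) (h h' g g' : Bool) :
    phi c (xor h h') (xor g g') = xor (phi c h g) (phi c h' g') := by
  revert h h' g g'
  unfold phi
  fin_cases c <;> decide

theorem subl : SUBL := by
  classical
  intro m e L _hodd hme hXC hE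
  have hex : ∀ p : ℕ, ∃ c : Fin 3, p.Prime → p ∣ e →
      ∀ h g, phi c h g = false → L p false false h g := by
    intro p
    by_cases hp : p.Prime ∧ p ∣ e
    · obtain ⟨c, hc⟩ := hE p hp.1 hp.2
      exact ⟨c, fun _ _ => hc⟩
    · exact ⟨0, fun h1 h2 => absurd ⟨h1, h2⟩ hp⟩
  choose c hc using hex
  have hms : Squarefree m := hme.squarefree_of_dvd (Dvd.intro e rfl)
  have hms1 : Squarefree (m * 1) := by rwa [mul_one]
  have hm0 : m ≠ 0 := hms.ne_zero
  unfold NL
  set A := ((m * e).divisors ×ˢ (m * e).divisors).filter (fun d : ℕ × ℕ =>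
    ∀ p ∈ (m * e).primeFactors, L p (dv p d.1) (dv p d.2) (sgn p d.1) (sgn p d.2)) with hA
  set B := (m.divisors ×ˢ m.divisors).filter (fun d : ℕ × ℕ => ∀ p ∈ m.primeFactors,
    L p (dv p d.1) (dv p d.2) (sgn p d.1) (sgn p d.2)) with hB
  have hBm : ∀ d ∈ B, (d.1 ∣ m ∧ d.2 ∣ m) ∧ ∀ p, p.Prime → p ∣ m →
      L p (dv p d.1) (dv p d.2) (sgn p d.1) (sgn p d.2) := by
    intro d hd
    rw [hB, mem_filter, mem_product, Nat.mem_divisors, Nat.mem_divisors] at hd
    exact ⟨⟨hd.1.1.1, hd.1.2.1⟩, fun p hp hpm => hd.2 p (Nat.mem_primeFactors.2 ⟨hp, hpm, hm0⟩)⟩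
  set f : ℕ × ℕ → Finset ℕ := fun d =>
    e.primeFactors.filter (fun p => phi (c p) (sgn p d.1) (sgn p d.2) = true) with hf
  have hfib : ∀ a ∈ B.image f, (B.filter (fun x => f x = a)).card ≤ A.card := by
    intro a ha
    obtain ⟨b, hb, rfl⟩ := mem_image.1 ha
    have hb' := hBm b hb
    have hb1 := hms.squarefree_of_dvd hb'.1.1
    have hb2 := hms.squarefree_of_dvd hb'.1.2
    apply Finset.card_le_card_of_injOn (fun d : ℕ × ℕ => (sig d.1 b.1, sig d.2 b.2))
    · intro d hd
      rw [mem_coe, mem_filter] at hd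
      have hd' := hBm d hd.1
      have hd1 := hms.squarefree_of_dvd hd'.1.1
      have hd2 := hms.squarefree_of_dvd hd'.1.2
      have g1 : sig d.1 b.1 ∣ m := sig_dvd hms1 (by rw [mul_one]; exact hd'.1.1)
        (by rw [mul_one]; exact hb'.1.1) (by rw [Nat.gcd_one_right, Nat.gcd_one_right])
      have g2 : sig d.2 b.2 ∣ m := sig_dvd hms1 (by rw [mul_one]; exact hd'.1.2)
        (by rw [mul_one]; exact hb'.1.2) (by rw [Nat.gcd_one_right, Nat.gcd_one_right])
      rw [mem_coe, hA, mem_filter, mem_product, Nat.mem_divisors, Nat.mem_divisors]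
      refine ⟨⟨⟨g1.trans (Dvd.intro _ rfl), hme.ne_zero⟩, ⟨g2.trans (Dvd.intro _ rfl), hme.ne_zero⟩⟩, ?_⟩
      intro p hp
      have hpp := Nat.prime_of_mem_primeFactors hp
      have hpm := Nat.dvd_of_mem_primeFactors hp
      show L p (dv p (sig d.1 b.1 : ℕ)) (dv p (sig d.2 b.2 : ℕ)) (sgn p (sig d.1 b.1 : ℕ))
        (sgn p (sig d.2 b.2 : ℕ))
      by_cases h : p ∣ m
      · rw [dv_sig hd1 hb1 hpp, dv_sig hd2 hb2 hpp, sgn_sig hd1 hb1 hpp, sgn_sig hd2 hb2 hpp]
        exact (hXC p hpp h).2 _ _ _ _ _ _ _ _ (hd'.2 p hpp h) (hb'.2 p hpp h)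
      · have hpe : p ∣ e := (hpp.dvd_mul.1 hpm).resolve_left h
        have n1 : dv p (sig d.1 b.1 : ℕ) = false := by
          rw [dv_eq, decide_eq_false_iff_not]
          exact fun hh => h (hh.trans g1)
        have n2 : dv p (sig d.2 b.2 : ℕ) = false := by
          rw [dv_eq, decide_eq_false_iff_not]
          exact fun hh => h (hh.trans g2)
        rw [n1, n2]
        apply hc p hpp hpe
        rw [sgn_sig hd1 hb1 hpp, sgn_sig hd2 hb2 hpp, phi_xor]
        have he0 : e ≠ 0 := right_ne_zero_of_mul hme.ne_zero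
        have hpE : p ∈ e.primeFactors := Nat.mem_primeFactors.2 ⟨hpp, hpe, he0⟩
        have h1 : p ∈ f d ↔ p ∈ f b := by rw [hd.2]
        rw [hf] at h1
        simp only [mem_filter, hpE, true_and] at h1
        cases h2 : phi (c p) (sgn p d.1) (sgn p d.2) <;>
          cases h3 : phi (c p) (sgn p b.1) (sgn p b.2) <;> simp_all
    · intro d hd d' hd' h
      rw [mem_coe, mem_filter] at hd hd'
      have g := hBm d hd.1
      have g' := hBm d' hd'.1
      have h1 : sig d.1 b.1 = sig d'.1 b.1 := congrArg Prod.fst h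
      have h2 : sig d.2 b.2 = sig d'.2 b.2 := congrArg Prod.snd h
      have gg : ∀ x y : ℕ, x.gcd 1 = y.gcd 1 := fun x y => by
        rw [Nat.gcd_one_right, Nat.gcd_one_right]
      exact Prod.ext
        (sig_inj hms1 (by rw [mul_one]; exact g.1.1) (by rw [mul_one]; exact g'.1.1)
          (by rw [mul_one]; exact hb'.1.1) (gg _ _) (gg _ _) h1)
        (sig_inj hms1 (by rw [mul_one]; exact g.1.2) (by rw [mul_one]; exact g'.1.2)
          (by rw [mul_one]; exact hb'.1.2) (gg _ _) (gg _ _) h2)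
  have h1 := Finset.card_le_mul_card_image B A.card hfib
  have h2 : (B.image f).card ≤ 2 ^ e.primeFactors.card := by
    have h3 : B.image f ⊆ e.primeFactors.powerset := by
      intro a ha
      obtain ⟨b, _, rfl⟩ := mem_image.1 ha
      rw [mem_powerset]
      exact filter_subset _ _
    refine (Finset.card_le_card h3).trans ?_
    rw [card_powerset]
  calc B.card ≤ A.card * (B.image f).card := h1
    _ ≤ A.card * 2 ^ e.primeFactors.card := Nat.mul_le_mul_left _ h2
    _ = 2 ^ e.primeFactors.card * A.card := mul_comm _ _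

end Pool.Agent.W940.FK
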